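import Pool.Agent.H77.GR.Stm

/-!
# Project GR: KOS, the exactness of the Koszul complex of `X_0 ^ D, X_1 ^ D, X_2 ^ D`
-/

set_option autoImplicit false

open MvPolynomial Module Pool.Agent.H77.GR

namespace Pool.Agent.H93.GR

theorem X_pow_dvd {K : Type} [Field K] {i j : Fin 3} (hij : i ≠ j) (D : ℕ) {p q : MvPolynomial (Fin 3) K}
    (h : X i ^ D * p = X j ^ D * q) : X j ^ D ∣ p := by
  have hp : Prime (X j : MvPolynomial (Fin 3) K) := X_prime
  have hn : ¬ (X j : MvPolynomial (Fin 3) K) ∣ X i ^ D := by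
    intro h1
    have h2 := hp.dvd_of_dvd_pow h1
    rw [X_dvd_X] at h2
    exact hij h2.symm
  exact hp.pow_dvd_of_dvd_mul_left D hn ⟨q, h⟩

theorem mem_of_X_pow_mul {K : Type} [Field K] (D : ℕ) {p a b : MvPolynomial (Fin 3) K}
    (h : X 2 ^ D * p = X 0 ^ D * a + X 1 ^ D * b) :
    ∃ c d : MvPolynomial (Fin 3) K, p = X 0 ^ D * c + X 1 ^ D * d := by
  have key : ∀ q : MvPolynomial (Fin 3) K,
      (∃ c d : MvPolynomial (Fin 3) K, q = X 0 ^ D * c + X 1 ^ D * d) ↔
        ∀ x ∈ q.support, Finsupp.single 0 D ≤ x ∨ Finsupp.single 1 D ≤ x := by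
    intro q
    have h1 := @mem_ideal_span_monomial_image (Fin 3) K _ q {Finsupp.single 0 D, Finsupp.single 1 D}
    rw [Set.image_pair, Ideal.mem_span_pair] at h1
    constructor
    · rintro ⟨c, d, rfl⟩ x hx
      have h2 := h1.1 ⟨c, d, by rw [X_pow_eq_monomial, X_pow_eq_monomial]; ring⟩ x hx
      obtain ⟨s, hs, h3⟩ := h2
      rcases hs with rfl | hs
      · exact Or.inl h3
      · rw [Set.mem_singleton_iff] at hs
        subst hs
        exact Or.inr h3
    · intro h2
      obtain ⟨c, d, h3⟩ := h1.2 fun x hx => (h2 x hx).elim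
        (fun h => ⟨_, Set.mem_insert _ _, h⟩) fun h => ⟨_, Set.mem_insert_of_mem _ rfl, h⟩
      refine ⟨c, d, ?_⟩
      rw [← h3, X_pow_eq_monomial, X_pow_eq_monomial]
      ring
  rw [key]
  intro x hx
  have h2 := (key (X 2 ^ D * p)).1 ⟨a, b, h⟩ (Finsupp.single 2 D + x) (by
    rw [MvPolynomial.mem_support_iff, X_pow_eq_monomial, coeff_monomial_mul, one_mul]
    exact MvPolynomial.mem_support_iff.1 hx)
  refine h2.imp (fun h => ?_) fun h => ?_
  · rw [Finsupp.single_le_iff] at h ⊢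
    simpa using h
  · rw [Finsupp.single_le_iff] at h ⊢
    simpa using h

theorem kos : S_KOS := by
  intro K _ D
  constructor
  · intro w hw
    obtain ⟨w', h0⟩ := X_pow_dvd (K := K) (i := 1) (j := 0) (by decide) D (hw 1 0)
    refine ⟨w', fun t => ?_⟩
    have h1 : (X 0 : MvPolynomial (Fin 3) K) ^ D ≠ 0 := pow_ne_zero _ (X_ne_zero _)
    refine mul_left_cancel₀ h1 ?_
    rw [hw 0 t, h0]
    ring
  · intro z hz hz0 h
    obtain ⟨c, d, h1⟩ := mem_of_X_pow_mul (K := K) D (p := z 0 1) (a := - z 1 2) (b := - z 2 0) (by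
      linear_combination h)
    have h2 : X 0 ^ D * (z 1 2 + X 2 ^ D * c) = X 1 ^ D * (- X 2 ^ D * d - z 2 0) := by
      rw [h1] at h
      linear_combination h
    obtain ⟨e, he⟩ := X_pow_dvd (K := K) (i := 0) (j := 1) (by decide) D h2
    have h3 : (X 1 : MvPolynomial (Fin 3) K) ^ D ≠ 0 := pow_ne_zero _ (X_ne_zero _)
    have h4 : X 0 ^ D * e = - X 2 ^ D * d - z 2 0 := by
      refine mul_left_cancel₀ h3 ?_
      rw [← h2, he]
      ring
    have h12 : z 1 2 = X 1 ^ D * e - X 2 ^ D * c := by linear_combination he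
    have h20 : z 2 0 = - (X 2 ^ D * d) - X 0 ^ D * e := by linear_combination h4
    refine ⟨![-d, c, e], fun s t => ?_⟩
    fin_cases s <;> fin_cases t
    · simp [hz0]
    · simp only [Fin.zero_eta, Fin.mk_one, Matrix.cons_val_zero, Matrix.cons_val_one]
      linear_combination h1
    · simp only [Fin.zero_eta, Fin.reduceFinMk, Matrix.cons_val_zero, Matrix.cons_val]
      rw [hz 0 2, h20]
      ring
    · simp only [Fin.zero_eta, Fin.mk_one, Matrix.cons_val_zero, Matrix.cons_val_one]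
      rw [hz 1 0, h1]
      ring
    · simp [hz0]
    · simp only [Fin.mk_one, Fin.reduceFinMk, Matrix.cons_val_one, Matrix.cons_val]
      exact h12
    · simp only [Fin.zero_eta, Fin.reduceFinMk, Matrix.cons_val_zero, Matrix.cons_val]
      rw [h20]
      ring
    · simp only [Fin.mk_one, Fin.reduceFinMk, Matrix.cons_val_one, Matrix.cons_val]
      rw [hz 2 1, h12]
      ring
    · simp [hz0]

end Pool.Agent.H93.GR
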